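import Pool.Agent.Helper34.FB.Goals

/-!
# Project FB: packet DET
-/

set_option autoImplicit false

namespace Pool.Agent.Helper16.FB

open Pool.Agent.Helper34.FB

universe u v w x

section

variable {W : Type u} {V : Type v} [AddCommGroup V] {J : Type} (D : J → W → W) (E : J → V →+ V)

/-- graded commutator with sign -/
def dls (s : ℤ) (j : J) (X : W → V) : W → V := fun y => E j (X y) - s • X (D j y)

/-- iterated graded commutators, the first index acts first -/
def nsts : ℕ → (ℕ → J) → ℤ → (W → V) → W → V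
  | 0, _, _, X => X
  | (m + 1), l, s, X => nsts m (fun k => l (k + 1)) (-s) (dls D E s (l 0) X)

/-- skip an index -/
def skp (j k : ℕ) : ℕ := if k < j then k else k + 1

theorem nsts_sub (m : ℕ) : ∀ (l : ℕ → J) (s : ℤ) (X Y : W → V),
    nsts D E m l s (fun y => X y - Y y) = fun y => nsts D E m l s X y - nsts D E m l s Y y := by
  induction m with
  | zero => intro l s X Y; rfl
  | succ m ih =>
    intro l s X Y
    change nsts D E m _ (-s) (dls D E s (l 0) (fun y => X y - Y y)) = fun y =>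
      nsts D E m _ (-s) (dls D E s (l 0) X) y - nsts D E m _ (-s) (dls D E s (l 0) Y) y
    rw [← ih]
    congr 1
    funext y
    change E (l 0) (X y - Y y) - s • (X (D (l 0) y) - Y (D (l 0) y)) =
      (E (l 0) (X y) - s • X (D (l 0) y)) - (E (l 0) (Y y) - s • Y (D (l 0) y))
    rw [map_sub, smul_sub]
    abel

theorem nsts_kill (m : ℕ) : ∀ (l : ℕ → J) (s : ℤ) (X : W → V) (P : W → Prop),
    (∀ y, P y → X y = 0) → (∀ j y, P y → P (D j y)) → ∀ y, P y → nsts D E m l s X y = 0 := by
  induction m with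
  | zero => intro l s X P hX _ y hy; exact hX y hy
  | succ m ih =>
    intro l s X P hX hP y hy
    refine ih _ _ _ P (fun y hy => ?_) hP y hy
    change E (l 0) (X y) - s • X (D (l 0) y) = 0
    rw [hX y hy, hX _ (hP _ _ hy), map_zero, smul_zero, sub_zero]

theorem nsts_last (m : ℕ) : ∀ (l : ℕ → J) (s : ℤ) (X : W → V),
    nsts D E (m + 1) l s X = dls D E (s * (-1) ^ m) (l m) (nsts D E m l s X) := by
  induction m with
  | zero =>
    intro l s X
    rw [pow_zero, mul_one]
    rfl
  | succ m ih =>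
    intro l s X
    have e1 : nsts D E (m + 1 + 1) l s X =
        nsts D E (m + 1) (fun k => l (k + 1)) (-s) (dls D E s (l 0) X) := rfl
    have e2 : nsts D E (m + 1) l s X =
        nsts D E m (fun k => l (k + 1)) (-s) (dls D E s (l 0) X) := rfl
    rw [e1, e2, ih, show -s * (-1) ^ m = s * (-1) ^ (m + 1) by rw [pow_succ]; ring]

theorem nsts_congr (m : ℕ) : ∀ (l l' : ℕ → J) (s : ℤ) (X : W → V), (∀ k < m, l k = l' k) →
    nsts D E m l s X = nsts D E m l' s X := by
  induction m with
  | zero => intro l l' s X _; rfl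
  | succ m ih =>
    intro l l' s X h
    change nsts D E m _ (-s) (dls D E s (l 0) X) = nsts D E m _ (-s) (dls D E s (l' 0) X)
    rw [h 0 (Nat.succ_pos m)]
    exact ih _ _ _ _ fun k hk => h (k + 1) (Nat.succ_lt_succ hk)

end

section

variable {W : Type u} {V1 : Type v} {V2 : Type w} [AddCommGroup V1] [AddCommGroup V2] {J : Type}
  (D : J → W → W) (E1 : J → V1 →+ V1) (E2 : J → V2 →+ V2)

theorem nsts_comp (κ : V1 →+ V2) (hκ : ∀ i v, E2 i (κ v) = κ (E1 i v)) (m : ℕ) :
    ∀ (l : ℕ → J) (s : ℤ) (X : W → V1),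
    nsts D E2 m l s (fun y => κ (X y)) = fun y => κ (nsts D E1 m l s X y) := by
  induction m with
  | zero => intro l s X; rfl
  | succ m ih =>
    intro l s X
    change nsts D E2 m _ (-s) (dls D E2 s (l 0) (fun y => κ (X y))) = fun y =>
      κ (nsts D E1 m _ (-s) (dls D E1 s (l 0) X) y)
    rw [← ih]
    congr 1
    funext y
    change E2 (l 0) (κ (X y)) - s • κ (X (D (l 0) y)) = κ (E1 (l 0) (X y) - s • X (D (l 0) y))
    rw [hκ, map_sub, map_zsmul]

theorem leib (g : V1 →+ V2) (κ : J → V1 →+ V2) (hg : ∀ j v, E2 j (g v) + g (E1 j v) = κ j v)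
    (hκ : ∀ i j v, E2 i (κ j v) = κ j (E1 i v)) (n : ℕ) : ∀ (l : ℕ → J) (s : ℤ) (Y : W → V1),
    nsts D E2 (n + 1) l (-s) (fun y => g (Y y)) = fun y =>
      (-1 : ℤ) ^ (n + 1) • g (nsts D E1 (n + 1) l s Y y) +
      ∑ j ∈ Finset.range (n + 1), (-1 : ℤ) ^ j •
        κ (l j) (nsts D E1 n (fun k => l (skp j k)) s Y y) := by
  have hstep : ∀ (j : J) (s : ℤ) (Y : W → V1), dls D E2 (-s) j (fun y => g (Y y)) =
      fun y => κ j (Y y) - g (dls D E1 s j Y y) := by
    intro j s Y
    funext y
    change E2 j (g (Y y)) - (-s) • g (Y (D j y)) = κ j (Y y) - g (E1 j (Y y) - s • Y (D j y))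
    rw [← hg, map_sub, map_zsmul, neg_smul]
    abel
  induction n with
  | zero =>
    intro l s Y
    change dls D E2 (-s) (l 0) (fun y => g (Y y)) = _
    rw [hstep]
    funext y
    rw [Finset.sum_range_one, zero_add, pow_one, pow_zero, one_smul, neg_one_smul]
    change κ (l 0) (Y y) - g (dls D E1 s (l 0) Y y) = -g (dls D E1 s (l 0) Y y) + κ (l 0) (Y y)
    abel
  | succ n ih =>
    intro l s Y
    change nsts D E2 (n + 1) (fun k => l (k + 1)) (-(-s)) (dls D E2 (-s) (l 0) (fun y => g (Y y))) = _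
    rw [hstep, nsts_sub, nsts_comp D E1 E2 (κ (l 0)) (fun i v => hκ i (l 0) v), ih]
    funext y
    rw [Finset.sum_range_succ' _ (n + 1), pow_zero, one_smul, neg_neg]
    have e1 : nsts D E1 (n + 1) (fun k => l (k + 1)) (-s) (dls D E1 s (l 0) Y) y =
        nsts D E1 (n + 1 + 1) l s Y y := rfl
    have e2 : nsts D E1 (n + 1) (fun k => l (k + 1)) s Y y =
        nsts D E1 (n + 1) (fun k => l (skp 0 k)) s Y y := rfl
    have e3 : ∀ j ∈ Finset.range (n + 1), (-1 : ℤ) ^ (j + 1) •
        κ (l (j + 1)) (nsts D E1 (n + 1) (fun k => l (skp (j + 1) k)) s Y y) =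
        -((-1 : ℤ) ^ j • κ (l (j + 1)) (nsts D E1 n (fun k => l (skp j k + 1)) (-s)
          (dls D E1 s (l 0) Y) y)) := by
      intro j _
      have e4 : nsts D E1 (n + 1) (fun k => l (skp (j + 1) k)) s Y =
          nsts D E1 n (fun k => l (skp (j + 1) (k + 1))) (-s) (dls D E1 s (l (skp (j + 1) 0)) Y) := rfl
      have e5 : skp (j + 1) 0 = 0 := if_pos (Nat.succ_pos j)
      have e6 : ∀ k, skp (j + 1) (k + 1) = skp j k + 1 := by
        intro k
        unfold skp
        split_ifs <;> omega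
      rw [e4, e5]
      simp only [e6]
      rw [pow_succ, mul_neg, mul_one, neg_smul]
    rw [Finset.sum_congr rfl e3, Finset.sum_neg_distrib, ← e1, ← e2, pow_succ (-1 : ℤ) (n + 1), mul_neg, mul_one,
      neg_smul]
    beta_reduce
    abel

end

section

variable {R : Type u} [CommRing R] {W : Type v} [AddCommGroup W] [Module R W] {J : Type}
  (D : J → W →ₗ[R] W)

theorem nsts_hp (m : ℕ) : ∀ (h : Fin m → W →+ W) (c : Fin m → J → R)
    (_ : ∀ i j y, D j (h i y) + h i (D j y) = c i j • y) (l : ℕ → J),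
    nsts (fun j y => D j y) (fun j => (D j).toAddMonoidHom) m l ((-1) ^ m) (fun y => hp m h y) =
      fun y => (Matrix.of fun i j : Fin m => c i (l j)).det • y := by
  induction m with
  | zero =>
    intro h c _ l
    funext y
    rw [Matrix.det_fin_zero, one_smul]
    rfl
  | succ m ih =>
    intro h c hh l
    have hl := leib (fun j y => D j y) (fun j => (D j).toAddMonoidHom) (fun j => (D j).toAddMonoidHom)
      (h 0) (fun j => DistribSMul.toAddMonoidHom W (c 0 j)) (fun j v => hh 0 j v)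
      (fun i j v => map_smul (D i) (c 0 j) v) m l ((-1) ^ m) (fun y => hp m (fun i => h i.succ) y)
    have e1 : (-1 : ℤ) ^ (m + 1) = -(-1) ^ m := by rw [pow_succ]; ring
    have e2 : (fun y => hp (m + 1) h y) = fun y => h 0 (hp m (fun i => h i.succ) y) := rfl
    rw [e1, e2, hl]
    funext y
    have e3 : nsts (fun j y => D j y) (fun j => (D j).toAddMonoidHom) (m + 1) l ((-1) ^ m)
        (fun y => hp m (fun i => h i.succ) y) y = 0 := by
      rw [nsts_last, ih (fun i => h i.succ) (fun i => c i.succ) (fun i j y => hh i.succ j y)]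
      rw [← mul_pow, neg_one_mul, neg_neg, one_pow]
      change D (l m) (_ • y) - (1 : ℤ) • (_ • D (l m) y) = 0
      rw [map_smul, one_smul, sub_self]
    rw [e3, map_zero, smul_zero, zero_add, Finset.sum_range, Matrix.det_succ_row_zero, Finset.sum_smul]
    refine Finset.sum_congr rfl fun j _ => ?_
    rw [ih (fun i => h i.succ) (fun i => c i.succ) (fun i j y => hh i.succ j y)]
    have e4 : (Matrix.of fun i k : Fin m => c i.succ (l (skp j k))) =
        (Matrix.of fun i j : Fin (m + 1) => c i (l j)).submatrix Fin.succ j.succAbove := by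
      ext i k
      rw [Matrix.submatrix_apply, Matrix.of_apply, Matrix.of_apply]
      have e5 : (j.succAbove k : ℕ) = skp j k := by
        unfold Fin.succAbove skp
        simp only [Fin.lt_def, Fin.val_castSucc]
        split_ifs <;> rfl
      rw [e5]
    rw [← e4]
    change (-1 : ℤ) ^ (j : ℕ) • (c 0 (l j) • ((Matrix.of fun i k : Fin m => c i.succ (l (skp j k))).det • y)) = _
    rw [Matrix.of_apply, ← Int.cast_smul_eq_zsmul R, smul_smul, smul_smul]
    congr 1
    push_cast
    rfl

end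

theorem gDET : Pool.Agent.Helper34.FB.G_DET.{u, v} := by
  intro R _ W W' _ _ _ J D D' ι Hh c1 c2 n h c hι hH hh z hz l
  classical
  -- extend the indices
  have hl0 : ∀ b : Fin (n + 1), (fun k : ℕ => if hk : k < n + 1 then l ⟨k, hk⟩ else l 0) (b : ℕ) = l b := by
    intro b
    have hb : (b : ℕ) < n + 1 := b.2
    change (if hk : (b : ℕ) < n + 1 then l ⟨b, hk⟩ else l 0) = l b
    rw [dif_pos hb]
  set l' : ℕ → J := fun k : ℕ => if hk : k < n + 1 then l ⟨k, hk⟩ else l 0 with hl'
  let κ : J → W →+ W' := fun j =>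
    { toFun := fun y => ι (c1 j • y, c2 j • y)
      map_zero' := by
        change ι (c1 j • (0 : W), c2 j • (0 : W)) = 0
        rw [smul_zero, smul_zero]
        exact map_zero ι
      map_add' := by
        intro a b
        change ι (c1 j • (a + b), c2 j • (a + b)) = ι (c1 j • a, c2 j • a) + ι (c1 j • b, c2 j • b)
        rw [smul_add, smul_add, ← map_add]
        rfl }
  have hleib := leib (fun j y => D j y) (fun j => (D j).toAddMonoidHom) D' Hh κ (fun j v => hH j v)
    (fun i j v => by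
      change D' i (ι (c1 j • v, c2 j • v)) = ι (c1 j • D i v, c2 j • D i v)
      rw [hι, map_smul, map_smul]) n l' ((-1) ^ n) (fun y => hp n h y)
  have hkill : nsts (fun j y => D j y) D' (n + 1) l' (-(-1) ^ n) (fun y => Hh (hp n h y)) z = 0 := by
    refine nsts_kill (fun j y => D j y) D' (n + 1) l' _ (fun y => Hh (hp n h y))
      (fun y => ∃ L : List J, y = L.foldr (fun j y => D j y) z) ?_ ?_ z ⟨[], rfl⟩
    · rintro y ⟨L, rfl⟩
      exact hz L
    · rintro j y ⟨L, rfl⟩
      exact ⟨j :: L, rfl⟩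
  have e3 : nsts (fun j y => D j y) (fun j => (D j).toAddMonoidHom) (n + 1) l' ((-1) ^ n)
      (fun y => hp n h y) z = 0 := by
    rw [nsts_last, nsts_hp D n h c hh]
    rw [← mul_pow, neg_one_mul, neg_neg, one_pow]
    change D (l' n) (_ • z) - (1 : ℤ) • (_ • D (l' n) z) = 0
    rw [map_smul, one_smul, sub_self]
  rw [hleib] at hkill
  beta_reduce at hkill
  rw [e3, map_zero, smul_zero, zero_add, Finset.sum_range] at hkill
  have e6 : ∀ (c0 : J → R) (j : Fin (n + 1)),
      (Matrix.of fun i k : Fin n => c i (l' (skp j k))) =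
      (Matrix.of fun (k b : Fin (n + 1)) => (Fin.cons c0 c : Fin (n + 1) → J → R) k (l b)).submatrix
        Fin.succ j.succAbove := by
    intro c0 j
    ext i k
    rw [Matrix.submatrix_apply, Matrix.of_apply, Matrix.of_apply, Fin.cons_succ]
    have e5 : (j.succAbove k : ℕ) = skp j k := by
      unfold Fin.succAbove skp
      simp only [Fin.lt_def, Fin.val_castSucc]
      split_ifs <;> rfl
    rw [← e5, hl0]
  have e7 : ∀ c0 : J → R,
      (Matrix.of fun (k b : Fin (n + 1)) => (Fin.cons c0 c : Fin (n + 1) → J → R) k (l b)).det • z =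
      ∑ j : Fin (n + 1), (-1 : ℤ) ^ (j : ℕ) • (c0 (l' j) •
        ((Matrix.of fun i k : Fin n => c i (l' (skp j k))).det • z)) := by
    intro c0
    rw [Matrix.det_succ_row_zero, Finset.sum_smul]
    refine Finset.sum_congr rfl fun j _ => ?_
    rw [← e6 c0 j, hl0, Matrix.of_apply, Fin.cons_zero, ← Int.cast_smul_eq_zsmul R, smul_smul, smul_smul]
    congr 1
    push_cast
    ring
  rw [e7, e7]
  have e8 : ∀ (f g : Fin (n + 1) → W), (∑ j, f j, ∑ j, g j) = ∑ j, (f j, g j) := by
    intro f g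
    exact Prod.ext (by rw [Prod.fst_sum]) (by rw [Prod.snd_sum])
  rw [e8, map_sum, ← hkill]
  refine Finset.sum_congr rfl fun j _ => ?_
  rw [nsts_hp D n h c hh]
  change ι ((-1 : ℤ) ^ (j : ℕ) • _, (-1 : ℤ) ^ (j : ℕ) • _) = (-1 : ℤ) ^ (j : ℕ) • ι (_, _)
  rw [← map_zsmul]
  rfl

end Pool.Agent.Helper16.FB
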